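import Pool.Agent.L0h82.Pt.Main

/-!
# Foremost coverage of periodic temporal trees with the period in the input

An instance is a triple `(p, T, t)`. Here `T : Tr` is a list of pairs: the vertices are
`0, …, T.length`, the agent starts at the vertex `0`, and the entry with index `i - 1` is the parent
of the vertex `i` and the presence pattern (of length `p`) of the edge between `i` and its parent.
`Legal p T` says that parents are smaller than their children and that the patterns have length `p`
and contain a `true`; `deg T v` is the number of edges of the tree at the vertex `v`;
`Covers p T t` says that some movement of the agent visits all vertices by the time `t`.

The proof is a reduction from satisfiability. The trees are caterpillars: a path whose edges are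
always present, with one leaf attached to each vertex of the path. For each variable there is a leaf
whose edge is present three times, and the agent spends either the first or the second of the two
intervals between them in this leaf; during the other one it can visit the leaves of the clauses
with one of the two literals, each at its own time, as the agent has time to travel along the path
between any two events. A last leaf can only be visited at the very end.
-/

set_option autoImplicit false

namespace Pool.Agent.Results.MP_ce2681_lc.PeriodInInput

open Pool.Agent.NPC Pool.Agent.H673R2 Pool.Agent.H801.Pt Pool.Agent.L0h82.Pt

/-- With the period in the input, foremost coverage of periodic temporal trees is `NP`-hard on trees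
of maximum degree at most three, and if the cover time of such trees is computed by a
polynomial-time Turing machine, then every language in `NP` is in `P`. -/
theorem result :
    NPHardOn (fun I : ℕ × Tr × ℕ => 1 ≤ I.1 ∧ Legal I.1 I.2.1 ∧ ∀ v, deg I.2.1 v ≤ 3)
      (fun I => Covers I.1 I.2.1 I.2.2) ∧
    ((∃ F : List Bool → List Bool, PolyTime F ∧ ∀ (p : ℕ) (T : Tr), 1 ≤ p → Legal p T →
        (∀ v, deg T v ≤ 3) → F (bits (p, T)) = bits (coverTime p T)) →
      ∀ L : Set (List Bool), InNP L → InP L) :=
  ⟨npHardOn_pt, fun ⟨_, hF, h⟩ => collapse hF h⟩

end Pool.Agent.Results.MP_ce2681_lc.PeriodInInput
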